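import Mathlib

/-!
Symplectic four-manifolds, blow-ups and the Bogomolov-Miyaoka-Yau line.
-/

namespace Pool.Agent.U644.BY

universe u

/-- Diffeomorphism classes of closed connected symplectic four-manifolds. -/
structure Symp where
  /-- the classes -/
  M : Type u
  /-- the first Betti number -/
  b1 : M → ℕ
  /-- `b⁺` -/
  bp : M → ℕ
  /-- `b⁻` -/
  bm : M → ℕ
  /-- the blow-up at a point -/
  bl : M → M
  /-- simply connected -/
  sc : M → Prop
  /-- the projective plane -/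
  cp2 : M
  bp_pos : ∀ X, 1 ≤ bp X
  noether : ∀ X, Even (1 + b1 X + bp X)
  b1_bl : ∀ X, b1 (bl X) = b1 X
  bp_bl : ∀ X, bp (bl X) = bp X
  bm_bl : ∀ X, bm (bl X) = bm X + 1
  sc_bl : ∀ X, sc (bl X) ↔ sc X
  sc_b1 : ∀ X, sc X → b1 X = 0
  sc_cp2 : sc cp2
  bp_cp2 : bp cp2 = 1
  bm_cp2 : bm cp2 = 0

variable (S : Symp.{u})

/-- The Euler characteristic. -/
def Symp.e (X : S.M) : ℤ := 2 - 2 * S.b1 X + S.bp X + S.bm X

/-- The signature. -/
def Symp.sg (X : S.M) : ℤ := S.bp X - S.bm X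

/-- `c₁²`. -/
def Symp.c1sq (X : S.M) : ℤ := 2 * S.e X + 3 * S.sg X

/-- The second Betti number. -/
def Symp.b2 (X : S.M) : ℕ := S.bp X + S.bm X

/-- A manifold is minimal if it is not a blow-up. -/
def Symp.Minimal (X : S.M) : Prop := ∀ Y, S.bl Y ≠ X

variable {S}

/-- Iterated blow-ups. -/
def blow (S : Symp.{u}) (X : S.M) : ℕ → S.M
  | 0 => X
  | k + 1 => S.bl (blow S X k)

lemma b1_blow (X : S.M) (k : ℕ) : S.b1 (blow S X k) = S.b1 X := by
  induction k with
  | zero => rfl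
  | succ k ih =>
    show S.b1 (S.bl (blow S X k)) = _
    rw [S.b1_bl, ih]

lemma bp_blow (X : S.M) (k : ℕ) : S.bp (blow S X k) = S.bp X := by
  induction k with
  | zero => rfl
  | succ k ih =>
    show S.bp (S.bl (blow S X k)) = _
    rw [S.bp_bl, ih]

lemma bm_blow (X : S.M) (k : ℕ) : S.bm (blow S X k) = S.bm X + k := by
  induction k with
  | zero => rfl
  | succ k ih =>
    show S.bm (S.bl (blow S X k)) = _
    rw [S.bm_bl, ih]
    ring

lemma prop_blow (P : S.M → Prop) (hP : ∀ X, P (S.bl X) ↔ P X) (X : S.M) (k : ℕ) :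
    P (blow S X k) ↔ P X := by
  induction k with
  | zero => rfl
  | succ k ih => exact (hP _).trans ih

/-- The excess `3 σ - e`. -/
def exc (X : S.M) : ℤ := 3 * S.sg X - S.e X

lemma exc_blow (X : S.M) (k : ℕ) : exc (blow S X k) = exc X - 4 * k := by
  unfold exc Symp.sg Symp.e
  rw [b1_blow, bp_blow, bm_blow]
  push_cast
  ring

lemma four_dvd_exc (X : S.M) : (4 : ℤ) ∣ exc X := by
  obtain ⟨a, ha⟩ := S.noether X
  unfold exc Symp.sg Symp.e
  have ha' : (1 : ℤ) + S.b1 X + S.bp X = a + a := by exact_mod_cast ha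
  refine ⟨(S.b1 X : ℤ) + (a - 1 - S.b1 X) - S.bm X - 0 , ?_⟩
  linarith

lemma c1_le_iff (X : S.M) : S.c1sq X ≤ 3 * S.e X ↔ exc X ≤ 0 := by
  unfold Symp.c1sq exc
  constructor <;> intro h <;> linarith

lemma c1_eq_iff (X : S.M) : S.c1sq X = 3 * S.e X ↔ exc X = 0 := by
  unfold Symp.c1sq exc
  constructor <;> intro h <;> linarith

/-- Every manifold is an iterated blow-up of a minimal one. -/
lemma exists_minimal (X : S.M) : ∃ (Y : S.M) (k : ℕ), S.Minimal Y ∧ blow S Y k = X := by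
  generalize hn : S.bm X = n
  induction n using Nat.strong_induction_on generalizing X with
  | _ n ih =>
    by_cases h : S.Minimal X
    · exact ⟨X, 0, h, rfl⟩
    · unfold Symp.Minimal at h
      push Not at h
      obtain ⟨Z, hZ⟩ := h
      have hbm : S.bm Z < n := by
        rw [← hn, ← hZ, S.bm_bl]
        exact Nat.lt_succ_self _
      obtain ⟨Y, k, hY, hYk⟩ := ih (S.bm Z) hbm Z rfl
      exact ⟨Y, k + 1, hY, by rw [← hZ, ← hYk]; rfl⟩

/-- On the line after blow-ups. -/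
lemma exists_on_line (X : S.M) (h : 0 ≤ exc X) : ∃ k : ℕ, exc (blow S X k) = 0 ∧
    (0 < exc X → 0 < k) := by
  obtain ⟨a, ha⟩ := four_dvd_exc X
  have ha0 : 0 ≤ a := by omega
  refine ⟨a.toNat, ?_, ?_⟩
  · rw [exc_blow, Int.toNat_of_nonneg ha0]
    omega
  · intro h0
    omega

/-- **BMY and the equality case.** -/
theorem line_iff (P : S.M → Prop) (hP : ∀ X, P (S.bl X) ↔ P X) :
    (∀ X, P X → 1 < S.bp X → S.c1sq X ≤ 3 * S.e X) ↔
      (∀ X, P X → 1 < S.bp X → S.c1sq X = 3 * S.e X → S.Minimal X) := by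
  constructor
  · intro h X hPX hb hX Y hY
    have h1 : P Y := by
      rw [← hY] at hPX
      exact (hP Y).1 hPX
    have h2 : 1 < S.bp Y := by
      rw [← hY, S.bp_bl] at hb
      exact hb
    have h3 := (c1_le_iff Y).1 (h Y h1 h2)
    have h4 := (c1_eq_iff X).1 hX
    have h5 := exc_blow (S := S) Y 1
    have h6 : blow S Y 1 = X := hY
    rw [h6] at h5
    push_cast at h5
    omega
  · intro h X hPX hb
    by_contra hX
    rw [c1_le_iff] at hX
    push Not at hX
    obtain ⟨k, hk, hk0⟩ := exists_on_line X hX.le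
    have hk1 := hk0 hX
    have h1 := h (blow S X k) ((prop_blow P hP X k).2 hPX) (by rw [bp_blow]; exact hb)
      ((c1_eq_iff _).2 hk)
    obtain ⟨j, rfl⟩ := Nat.exists_eq_succ_of_ne_zero (by omega : k ≠ 0)
    exact h1 (blow S X j) rfl

/-- It suffices to consider minimal manifolds. -/
theorem minimal_iff (P : S.M → Prop) (hP : ∀ X, P (S.bl X) ↔ P X) :
    (∀ X, P X → 1 < S.bp X → S.c1sq X ≤ 3 * S.e X) ↔
      (∀ X, P X → 1 < S.bp X → S.Minimal X → S.c1sq X ≤ 3 * S.e X) := by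
  constructor
  · intro h X h1 h2 _
    exact h X h1 h2
  · intro h X h1 h2
    obtain ⟨Y, k, hY, rfl⟩ := exists_minimal X
    have h3 := h Y ((prop_blow P hP Y k).1 h1) (by rw [bp_blow] at h2; exact h2) hY
    rw [c1_le_iff] at h3 ⊢
    rw [exc_blow]
    omega

/-! ### Fibre sums along tori -/

/-- Fibre sums along symplectic tori of square zero. -/
structure TorusSums (S : Symp.{u}) where
  /-- the manifold contains a symplectic torus of square zero -/
  tor : S.M → Prop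
  /-- the fibre sum along such tori -/
  fs : S.M → S.M → S.M
  tor_fs : ∀ X Y, tor X → tor Y → tor (fs X Y)
  e_fs : ∀ X Y, tor X → tor Y → S.e (fs X Y) = S.e X + S.e Y
  sg_fs : ∀ X Y, tor X → tor Y → S.sg (fs X Y) = S.sg X + S.sg Y
  bp_fs : ∀ X Y, tor X → tor Y → 1 < S.bp X → 1 < S.bp Y → 1 < S.bp (fs X Y)

variable (F : TorusSums S)

/-- Iterated fibre sums. -/
def pw (X : S.M) : ℕ → S.M
  | 0 => X
  | k + 1 => F.fs (pw X k) X

lemma pw_props (X : S.M) (hX : F.tor X) (hb : 1 < S.bp X) (k : ℕ) :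
    F.tor (pw F X k) ∧ 1 < S.bp (pw F X k) ∧ S.e (pw F X k) = (k + 1) * S.e X ∧
      S.sg (pw F X k) = (k + 1) * S.sg X := by
  induction k with
  | zero => exact ⟨hX, hb, by simp [pw], by simp [pw]⟩
  | succ k ih =>
    obtain ⟨h1, h2, h3, h4⟩ := ih
    refine ⟨F.tor_fs _ _ h1 hX, F.bp_fs _ _ h1 hX h2 hb, ?_, ?_⟩
    · show S.e (F.fs (pw F X k) X) = _
      rw [F.e_fs _ _ h1 hX, h3]
      push_cast
      ring
    · show S.sg (F.fs (pw F X k) X) = _
      rw [F.sg_fs _ _ h1 hX, h4]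
      push_cast
      ring

/-- **BMY up to a sublinear error.** -/
theorem torus_iff :
    (∀ X, F.tor X → 1 < S.bp X → S.c1sq X ≤ 3 * S.e X) ↔
      (∀ δ : ℝ, 0 < δ → ∃ C : ℝ, ∀ X, F.tor X → 1 < S.bp X →
        (S.c1sq X : ℝ) ≤ 3 * S.e X + δ * |(S.e X : ℝ)| + C) := by
  constructor
  · intro h δ hδ
    refine ⟨0, fun X h1 h2 => ?_⟩
    have h3 : (S.c1sq X : ℝ) ≤ 3 * S.e X := by exact_mod_cast h X h1 h2
    have h4 : 0 ≤ δ * |(S.e X : ℝ)| := by positivity
    linarith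
  · intro h X h1 h2
    by_contra hX
    push Not at hX
    have hX' : (3 * S.e X + 1 : ℝ) ≤ (S.c1sq X : ℝ) := by exact_mod_cast hX
    -- choose `δ` small
    set δ : ℝ := 1 / (2 * (|(S.e X : ℝ)| + 1)) with hδ
    have he : 0 ≤ |(S.e X : ℝ)| := abs_nonneg _
    have hδ0 : 0 < δ := by positivity
    have hδe : δ * |(S.e X : ℝ)| ≤ 1 / 2 := by
      rw [hδ, div_mul_eq_mul_div, one_mul, div_le_div_iff₀ (by positivity) (by norm_num)]
      linarith
    obtain ⟨C, hC⟩ := h δ hδ0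
    obtain ⟨k, hk⟩ := exists_nat_gt (2 * C)
    obtain ⟨g1, g2, g3, g4⟩ := pw_props F X h1 h2 k
    have h5 := hC _ g1 g2
    have h6 : (S.c1sq (pw F X k) : ℝ) = (k + 1) * S.c1sq X := by
      unfold Symp.c1sq
      rw [g3, g4]
      push_cast
      ring
    rw [h6, g3] at h5
    push_cast at h5
    rw [abs_mul, abs_of_pos (by positivity : (0 : ℝ) < (k : ℝ) + 1)] at h5
    have h7 : 0 < (k : ℝ) + 1 := by positivity
    nlinarith

end Pool.Agent.U644.BY
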