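import Pool.Agent.U644.BY.Core

/-!
Simply connected symplectic four-manifolds with `3 σ = χ`.
-/

namespace Pool.Agent.U644.BY

universe u

variable {S : Symp.{u}}

/-- Q1: a simply connected symplectic four-manifold with `3 σ = χ` is the projective plane. -/
def Symp.OnlyPlane (S : Symp.{u}) : Prop :=
  ∀ X, S.sc X → 3 * S.sg X = S.e X → X = S.cp2

/-- A simply connected symplectic four-manifold with `b₂ = 1` is the projective plane (there is no
exotic symplectic projective plane). -/
def Symp.NoExoticPlane (S : Symp.{u}) : Prop := ∀ X, S.sc X → S.b2 X = 1 → X = S.cp2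

lemma b2_blow (X : S.M) (k : ℕ) : S.b2 (blow S X k) = S.b2 X + k := by
  unfold Symp.b2
  rw [bp_blow, bm_blow]
  ring

lemma exc_of_b2_one (X : S.M) (h : S.sc X) (hb : S.b2 X = 1) : exc X = 0 := by
  have h1 := S.bp_pos X
  have h2 := S.sc_b1 X h
  unfold Symp.b2 at hb
  have h3 : S.bp X = 1 := by omega
  have h4 : S.bm X = 0 := by omega
  unfold exc Symp.sg Symp.e
  rw [h2, h3, h4]
  norm_num

lemma b2_pos (X : S.M) : 1 ≤ S.b2 X := by
  have := S.bp_pos X
  unfold Symp.b2
  omega

lemma b2_cp2 : S.b2 S.cp2 = 1 := by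
  unfold Symp.b2
  rw [S.bp_cp2, S.bm_cp2]

theorem onlyPlane_iff : S.OnlyPlane ↔
    (∀ X, S.sc X → 2 ≤ S.b2 X → 3 * S.sg X < S.e X) ∧ S.NoExoticPlane := by
  constructor
  · intro h
    refine ⟨fun X hX hb => ?_, fun X hX hb => ?_⟩
    · by_contra hlt
      push Not at hlt
      have h0 : 0 ≤ exc X := by
        unfold exc
        linarith
      obtain ⟨k, hk, _⟩ := exists_on_line X h0
      have h1 : blow S X k = S.cp2 := by
        refine h _ ((prop_blow S.sc S.sc_bl X k).2 hX) ?_
        unfold exc at hk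
        linarith
      have h2 := b2_blow X k
      rw [h1, b2_cp2] at h2
      omega
    · refine h X hX ?_
      have h1 := exc_of_b2_one X hX hb
      unfold exc at h1
      linarith
  · rintro ⟨h1, h2⟩ X hX hline
    have hb := b2_pos X
    by_cases hb2 : 2 ≤ S.b2 X
    · have := h1 X hX hb2
      omega
    · exact h2 X hX (by omega)

theorem onlyPlane_iff_minimal : S.OnlyPlane ↔
    (∀ X, S.sc X → S.Minimal X → 2 ≤ S.b2 X → 3 * S.sg X < S.e X) ∧ S.NoExoticPlane := by
  rw [onlyPlane_iff]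
  constructor
  · rintro ⟨h1, h2⟩
    exact ⟨fun X hX _ hb => h1 X hX hb, h2⟩
  · rintro ⟨h1, h2⟩
    refine ⟨fun X hX hb => ?_, h2⟩
    obtain ⟨Y, k, hY, rfl⟩ := exists_minimal X
    have hYsc : S.sc Y := (prop_blow S.sc S.sc_bl Y k).1 hX
    have hexc := exc_blow (S := S) Y k
    have hbb := b2_blow (S := S) Y k
    have hpos := b2_pos Y
    by_cases hb2 : 2 ≤ S.b2 Y
    · have h3 := h1 Y hYsc hY hb2
      unfold exc at hexc
      omega
    · have hb1 : S.b2 Y = 1 := by omega
      have h3 := exc_of_b2_one Y hYsc hb1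
      have hk : 1 ≤ k := by omega
      unfold exc at hexc h3
      omega

theorem bmy_of_onlyPlane (h : S.OnlyPlane) (X : S.M) (hX : S.sc X) :
    S.c1sq X ≤ 3 * S.e X := by
  rw [c1_le_iff]
  by_cases hb : 2 ≤ S.b2 X
  · have := (onlyPlane_iff.1 h).1 X hX hb
    unfold exc
    linarith
  · have hb1 : S.b2 X = 1 := by
      have := b2_pos X
      omega
    exact (exc_of_b2_one X hX hb1).le

end Pool.Agent.U644.BY
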